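import Pool.Agent.helper53.DC.SpecI

/-!
# Project dc (MP_a96873_gt), module D1: walls along a geodesic
-/

set_option autoImplicit false

namespace Pool.Agent.helper63.DC

open Pool.Agent.helper53.DC

theorem D1_hs_not {X Wl : Type} (S : WS X Wl) (v : Wl) (b : Bool) (y : X) :
    y ∈ S.hs v (!b) ↔ ¬ y ∈ S.hs v b := by
  unfold WS.hs
  rw [Set.mem_ofPred_eq, Set.mem_ofPred_eq]
  cases b <;> simp

theorem D1_side {X Wl : Type} (S : WS X Wl) (v : Wl) (n k : ℕ) (x : ℕ → X)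
    (h : ∀ a, a ≤ n → (S.Sep v (x 0) (x a) ↔ k < a)) :
    ∃ b : Bool, ∀ a, a ≤ n → (x a ∈ S.hs v b ↔ a ≤ k) := by
  classical
  refine ⟨decide (x 0 ∈ S.H v), fun a ha => ?_⟩
  have h1 := h a ha
  unfold WS.Sep at h1
  unfold WS.hs
  rw [Set.mem_ofPred_eq, decide_eq_true_iff, ← not_lt, ← h1, not_not]
  exact Iff.comm

theorem D1 (hA15 : A15_stmt) : D1_stmt := by
  intro B W _ M cs n x w hG i j l hij hjl hln hdis hcr
  obtain ⟨_, hS, _, _, _⟩ := hA15 cs n x w hG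
  have side : ∀ k, k < n → ∃ b : Bool, ∀ a, a ≤ n → (x a ∈ (cw cs).hs (w k) b ↔ a ≤ k) := by
    intro k hk
    apply D1_side
    intro a ha
    rw [hS k 0 a hk (Nat.zero_le _) ha]
    simp
  obtain ⟨bi, hi⟩ := side i (by omega)
  obtain ⟨bj, hj⟩ := side j (by omega)
  obtain ⟨bl, hl⟩ := side l hln
  have key : (cw cs).hs (w i) bi ⊆ (cw cs).hs (w j) bj := by
    intro y hy
    by_contra hc
    apply hdis.2
    have q1 : (x 0 ∈ (cw cs).hs (w i) bi) ∧ (x 0 ∈ (cw cs).hs (w j) bj) :=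
      ⟨(hi 0 (Nat.zero_le _)).2 (Nat.zero_le _), (hj 0 (Nat.zero_le _)).2 (Nat.zero_le _)⟩
    have q2 : (x j ∈ (cw cs).hs (w i) (!bi)) ∧ (x j ∈ (cw cs).hs (w j) bj) := by
      refine ⟨?_, (hj j (by omega)).2 le_rfl⟩
      rw [D1_hs_not, hi j (by omega)]
      omega
    have q3 : (x n ∈ (cw cs).hs (w i) (!bi)) ∧ (x n ∈ (cw cs).hs (w j) (!bj)) := by
      rw [D1_hs_not, D1_hs_not, hi n le_rfl, hj n le_rfl]
      omega
    have q4 : (y ∈ (cw cs).hs (w i) bi) ∧ (y ∈ (cw cs).hs (w j) (!bj)) := by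
      rw [D1_hs_not]
      exact ⟨hy, hc⟩
    intro b b'
    rcases Bool.eq_or_eq_not b bi with rfl | rfl <;>
      rcases Bool.eq_or_eq_not b' bj with rfl | rfl
    · exact ⟨_, q1⟩
    · exact ⟨_, q4⟩
    · exact ⟨_, q2⟩
    · exact ⟨_, q3⟩
  have q1 : (x 0 ∈ (cw cs).hs (w l) bl) ∧ (x 0 ∈ (cw cs).hs (w j) bj) :=
    ⟨(hl 0 (Nat.zero_le _)).2 (Nat.zero_le _), (hj 0 (Nat.zero_le _)).2 (Nat.zero_le _)⟩
  have q2 : (x l ∈ (cw cs).hs (w l) bl) ∧ (x l ∈ (cw cs).hs (w j) (!bj)) := by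
    refine ⟨(hl l (by omega)).2 le_rfl, ?_⟩
    rw [D1_hs_not, hj l (by omega)]
    omega
  have q3 : (x n ∈ (cw cs).hs (w l) (!bl)) ∧ (x n ∈ (cw cs).hs (w j) (!bj)) := by
    rw [D1_hs_not, D1_hs_not, hl n le_rfl, hj n le_rfl]
    omega
  obtain ⟨y, hy1, hy2⟩ := hcr (!bl) bi
  have q4 : (y ∈ (cw cs).hs (w l) (!bl)) ∧ (y ∈ (cw cs).hs (w j) bj) := ⟨hy1, key hy2⟩
  intro b b'
  rcases Bool.eq_or_eq_not b bl with rfl | rfl <;>
    rcases Bool.eq_or_eq_not b' bj with rfl | rfl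
  · exact ⟨_, q1⟩
  · exact ⟨_, q2⟩
  · exact ⟨_, q4⟩
  · exact ⟨_, q3⟩

end Pool.Agent.helper63.DC
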