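import Pool.Agent.helper53.DC.SpecK

/-!
# Project dc (MP_a96873_gt), module K9: a near vertex gives a near chamber
-/

set_option autoImplicit false

namespace Pool.Agent.helper63.DC

open Pool.Agent.helper53.DC

theorem K9 (hH1 : H1_stmt) (hH2 : H2_stmt) (hH5 : H5_stmt) (hH6 : H6_stmt) (hA7 : A7_stmt)
    (hA9 : A9_stmt) (hA11 : A11_stmt) : K9_stmt := by
  intro B W _ _ M cs δ hδ k
  obtain ⟨c6, hc6⟩ := hH5 cs δ hδ
  obtain ⟨l, hl⟩ := hH6 cs δ hδ k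
  obtain ⟨N, hN⟩ : ∃ N, ∀ i j, M i j ≤ N := by
    obtain ⟨N, hN⟩ := (Set.finite_range (fun q : B × B => M q.1 q.2)).bddAbove
    exact ⟨N, fun i j => hN ⟨(i, j), rfl⟩⟩
  refine ⟨8 * δ + 3 + c6 + (1 + 2 * N + 2 * l), fun u F hF hnc => ?_⟩
  have hnear : ∀ v ∈ F, ∃ p ∈ Car cs u, DD cs v p ≤ 1 + 2 * N + 2 * l := by
    intro v hv
    by_cases huv : u = v
    · obtain ⟨y, i, hi⟩ := u.2
      refine ⟨y, ⟨i, ?_⟩, ?_⟩
      · rw [hi]
        group
      · rw [← huv]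
        have h1 : DD cs u y = 1 := by
          rw [← mem_Car]
          refine ⟨i, ?_⟩
          rw [hi]
          group
        omega
    · by_cases hC : (cw cs).Cross u v
      · obtain ⟨p, hp, hp'⟩ := hA9 cs N hN u v (hA7 cs u v hC)
        exact ⟨p, hp, by omega⟩
      · obtain ⟨x, hx1, hx2⟩ := hl u v ⟨huv, hC⟩ (hnc v hv)
        obtain ⟨z, hz, hz', _⟩ := hA11 cs u x
        refine ⟨z, hz, ?_⟩
        have h1 := DD_le cs v z x
        rw [dd_comm cs z x] at h1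
        omega
  obtain ⟨z, hz⟩ := hc6 F hF
  have hne : ∃ n, ∃ x ∈ Car cs u, dd cs z x = n := by
    obtain ⟨y, i, hi⟩ := u.2
    refine ⟨_, y, ⟨i, ?_⟩, rfl⟩
    rw [hi]
    group
  classical
  obtain ⟨x, hx, hx'⟩ := Nat.find_spec hne
  have hmin : ∀ z' ∈ Car cs u, dd cs z x ≤ dd cs z z' := by
    intro z' hz'
    rw [hx']
    exact Nat.find_min' hne ⟨z', hz', rfl⟩
  refine ⟨x, hx, fun v hv => ?_⟩
  obtain ⟨p, hp, hpc⟩ := hnear v hv
  have h2 := hH2 cs δ hδ u z x p 1 hx hmin (le_of_eq ((mem_Car cs u p).1 hp))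
  have h1 := hH1 cs δ hδ v z p x
  have h3 := hz v hv
  have h4 : max (DD cs v z) (DD cs v p) ≤ c6 + (1 + 2 * N + 2 * l) :=
    max_le (by omega) (by omega)
  omega

end Pool.Agent.helper63.DC
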