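import Pool.Agent.helper53.DC.SpecM

/-!
# Project dc (MP_a96873_gt), module L1: the developing map exists
-/

set_option autoImplicit false

namespace Pool.Agent.helper63.DC

open Pool.Agent.helper53.DC

theorem L1 (hA2 : A2_stmt) (hA8 : A8_stmt) (hM2 : M2_stmt) : L1_stmt := by
  intro B W _ M cs H m hD
  obtain ⟨hcomm, _⟩ := hM2 (labG cs H)
  obtain ⟨c, h1, h2⟩ := hA2 cs (fun r => (ra (labG cs H)).simple (lab cs H r))
    (fun r => (ra (labG cs H)).simple_mul_simple_self _) (by
      intro r r' hR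
      by_cases hrr : r = r'
      · rw [hrr]
      · have hC := hA8 cs r r' hR hrr
        exact hcomm _ _ ⟨hD.a1 r r' hC, r, r', rfl, rfl, hC⟩)
  exact ⟨c, h1, h2⟩

end Pool.Agent.helper63.DC
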