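import Pool.Agent.helper53.DC.SpecM

/-!
# Project dc (MP_a96873_gt), module L2: the developing map is equivariant
-/

set_option autoImplicit false

namespace Pool.Agent.helper63.DC

open Pool.Agent.helper53.DC

theorem L2 : L2_stmt := by
  intro B W _ M cs H c hc h hh x
  induction x using cs.simple_induction_right with
  | one => rw [mul_one, hc.one, mul_one]
  | mul_simple_right x i ih =>
    have hw : wall cs (h * x) i = h • wall cs x i := by
      apply Subtype.ext
      rw [wall_val, smul_wall_val, wall_val]
      group
    have hl : lab cs H (wall cs (h * x) i) = lab cs H (wall cs x i) := by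
      rw [hw]
      exact (lab_eq cs).2 ⟨h⁻¹, H.inv_mem hh, by rw [inv_smul_smul]⟩
    rw [← mul_assoc, hc.mul, hc.mul, ih, hl, mul_assoc]

end Pool.Agent.helper63.DC
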