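import Pool.Agent.helper53.DC.SpecM

/-!
# Project dc (MP_a96873_gt), module L3: the developing map is isometric
-/

set_option autoImplicit false

namespace Pool.Agent.helper63.DC

open Pool.Agent.helper53.DC

section Gen

variable {B' W' : Type} [Group W'] {M' : CoxeterMatrix B'} (cs' : CoxeterSystem M' W')

theorem L3_car_self (x : W') (s : B') : x ∈ Car cs' (wall cs' x s) := by
  refine ⟨s, ?_⟩
  rw [wall_val]
  group

theorem L3_car_succ (x : W') (s : B') : x * cs'.simple s ∈ Car cs' (wall cs' x s) := by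
  refine ⟨s, ?_⟩
  rw [wall_val, mul_assoc x (cs'.simple s) (cs'.simple s), cs'.simple_mul_simple_self]
  have h : x * cs'.simple s * x⁻¹ * (x * cs'.simple s) = x * (cs'.simple s * cs'.simple s) := by
    group
  rw [h, cs'.simple_mul_simple_self]

/-- A wall that is not crossed does not separate. -/
theorem L3_nosep (hA3 : A3_stmt) (n : ℕ) (y : ℕ → W') (s : ℕ → B')
    (hstep : ∀ k < n, y (k + 1) = y k * cs'.simple (s k)) (r : Wall cs') (i j : ℕ)
    (hij : i ≤ j) (hj : j ≤ n) (h : ∀ k, i ≤ k → k < j → r ≠ wall cs' (y k) (s k)) :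
    ¬ (cw cs').Sep r (y i) (y j) := by
  induction j, hij using Nat.le_induction with
  | base =>
    intro hc
    exact hc Iff.rfl
  | succ j hij ih =>
    have h1 := ih (by omega) (fun k hk hk' => h k hk (by omega))
    have h2 : ¬ (cw cs').Sep r (y j) (y (j + 1)) := by
      rw [hstep j (by omega), hA3 cs' r (y j) (s j)]
      exact h j hij (Nat.lt_succ_self j)
    unfold WS.Sep at h1 h2 ⊢
    rw [not_not] at h1 h2 ⊢
    exact h1.trans h2

/-- A wall that is crossed exactly once separates. -/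
theorem L3_sep (hA3 : A3_stmt) (n : ℕ) (y : ℕ → W') (s : ℕ → B')
    (hstep : ∀ k < n, y (k + 1) = y k * cs'.simple (s k)) (i j : ℕ)
    (hj : j ≤ n) (k : ℕ) (hik : i ≤ k) (hkj : k < j)
    (h : ∀ l, i ≤ l → l < j → l ≠ k → wall cs' (y k) (s k) ≠ wall cs' (y l) (s l)) :
    (cw cs').Sep (wall cs' (y k) (s k)) (y i) (y j) := by
  have h1 := L3_nosep cs' hA3 n y s hstep (wall cs' (y k) (s k)) i k hik (by omega)
    (fun l hl hl' => h l hl (by omega) (by omega))
  have h2 := L3_nosep cs' hA3 n y s hstep (wall cs' (y k) (s k)) (k + 1) j (by omega) hj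
    (fun l hl hl' => h l (by omega) hl' (by omega))
  have h3 : (cw cs').Sep (wall cs' (y k) (s k)) (y k) (y (k + 1)) := by
    rw [hstep k (by omega), hA3 cs' _ (y k) (s k)]
  unfold WS.Sep at h1 h2 h3 ⊢
  tauto

end Gen

/-- The walls of the image of a geodesic are pairwise different. -/
theorem L3_ne (hA3 : A3_stmt) (hA6 : A6_stmt) (hA12 : A12_stmt) (hA15 : A15_stmt)
    (hA22 : A22_stmt) (hM1 : M1_stmt) (hM2 : M2_stmt) (hW3 : W3_stmt)
    {B W : Type} [Group W] {M : CoxeterMatrix B} (cs : CoxeterSystem M W)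
    (H : Subgroup W) (m : ℕ) (c : W → RA (labG cs H)) (hD : Deep cs H m)
    (n : ℕ) (x : ℕ → W) (w : ℕ → Wall cs) (hG : Gal cs n x w)
    (hstep : ∀ k < n, c (x (k + 1)) = c (x k) * (ra (labG cs H)).simple (lab cs H (w k)))
    (hcar : ∀ k < n, x k ∈ Car cs (w k) ∧ x (k + 1) ∈ Car cs (w k)) :
    ∀ d i j, j = i + d + 1 → j < n →
      wall (ra (labG cs H)) (c (x i)) (lab cs H (w i)) ≠
        wall (ra (labG cs H)) (c (x j)) (lab cs H (w j)) := by
  obtain ⟨_, _, hne, hsep, hsub⟩ := hA15 cs n x w hG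
  obtain ⟨_, _, _, hadj⟩ := hM2 (labG cs H)
  obtain ⟨t, ht, _⟩ := hM1 (labG cs H)
  obtain ⟨_, hW, _⟩ := hW3 (cw cs) (hA6 cs)
  intro d
  induction d using Nat.strong_induction_on with
  | _ d ih =>
    intro i j hij hjn heq
    have hdist : ∀ k l, i ≤ k → l ≤ j → k < l → ¬ (k = i ∧ l = j) →
        wall (ra (labG cs H)) (c (x k)) (lab cs H (w k)) ≠
          wall (ra (labG cs H)) (c (x l)) (lab cs H (w l)) := by
      intro k l hk hl hkl hne'
      exact ih (l - k - 1) (by omega) k l (by omega) (by omega)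
    -- all labels between are adjacent to the label of `w i`
    have hadj' : ∀ k, i < k → k < j → (labG cs H).Adj (lab cs H (w k)) (lab cs H (w i)) := by
      intro k hik hkj
      apply hadj (c (x k)) (c (x i))
      apply hA12 (ra (labG cs H)) _ _ (c (x (i + 1))) (c (x j))
      · rw [hstep i (by omega)]
        exact L3_car_succ _ _ _
      · rw [heq]
        exact L3_car_self _ _ _
      · apply L3_nosep (ra (labG cs H)) hA3 n (fun k => c (x k)) (fun k => lab cs H (w k)) hstep
          _ (i + 1) j (by omega) (by omega)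
        intro l hl hl'
        exact hdist i l le_rfl hl'.le (by omega) (by omega)
      · apply L3_sep (ra (labG cs H)) hA3 n (fun k => c (x k)) (fun k => lab cs H (w k)) hstep
          (i + 1) j (by omega) k (by omega) hkj
        intro l hl hl' hlk
        rcases lt_or_gt_of_ne hlk with h1 | h1
        · exact (hdist l k (by omega) hkj.le h1 (by omega)).symm
        · exact hdist k l hik.le hl'.le h1 (by omega)
    have hlab : lab cs H (w i) = lab cs H (w j) := by
      have := congrArg t heq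
      rwa [ht, ht] at this
    -- walls between `w i` and `w k` are among the `w l`, `i < l < k`
    have hbtw : ∀ k, i < k → k ≤ j → ∀ u, (cw cs).Btw u (w i) (w k) →
        ∃ l, i < l ∧ l < k ∧ u = w l := by
      intro k hik hkj u hu
      obtain ⟨b, hb1, hb2⟩ := hu
      have e1 := (hA22 cs (w i) u b hb1.1).1 hb1
      have e2 := (hA22 cs (w k) u (!b) hb2.1).1 hb2
      have f1 := e1 (hcar i (by omega)).2
      have f2 := e2 (hcar k (by omega)).1
      have hsu : (cw cs).Sep u (x (i + 1)) (x k) := by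
        unfold WS.hs at f1 f2
        rw [Set.mem_ofPred_eq] at f1 f2
        unfold WS.Sep
        intro h
        cases b
        · simp at f1 f2
          exact f1 (h.2 f2)
        · simp at f1 f2
          exact f2 (h.1 f1)
      have hg := hsub (i + 1) k (by omega) (by omega)
      obtain ⟨_, _, _, hsep', _⟩ := hA15 cs _ _ _ hg
      obtain ⟨l, hl, hl'⟩ := hsep' u (by
        show (cw cs).Sep u (x (i + 1 + 0)) (x (i + 1 + (k - (i + 1))))
        rw [show i + 1 + 0 = i + 1 by omega, show i + 1 + (k - (i + 1)) = k by omega]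
        exact hsu)
      exact ⟨i + 1 + l, by omega, by omega, hl'⟩
    have hnew : w i ≠ w j := by
      intro h
      have := hne i j (by omega) hjn h
      omega
    obtain ⟨v, hv⟩ := hD.c (w i) (w j) hnew hlab
    have hv0 := hv.1 0 hD.pos
    obtain ⟨l, hl1, hl2, hl3⟩ := hbtw j (by omega) le_rfl _ hv0
    have hex : ∃ k, i < k ∧ k < j ∧ (cw cs).Dis (w i) (w k) := by
      refine ⟨l, hl1, hl2, ?_⟩
      rw [← hl3]
      exact (hW _ _ _ hv0).2.1
    classical
    have hk := Nat.find_spec hex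
    have hmin : ∀ k', k' < Nat.find hex → ¬ (i < k' ∧ k' < j ∧ (cw cs).Dis (w i) (w k')) :=
      fun k' hk' => Nat.find_min hex hk'
    obtain ⟨k, hkd⟩ : ∃ k, k = Nat.find hex := ⟨_, rfl⟩
    rw [← hkd] at hk hmin
    obtain ⟨hk1, hk2, hk3⟩ := hk
    have hno : ∀ u, ¬ (cw cs).Btw u (w i) (w k) := by
      intro u hu
      obtain ⟨l, hl1, hl2, hl3⟩ := hbtw k hk1 hk2.le u hu
      apply hmin l hl2
      refine ⟨hl1, by omega, ?_⟩
      rw [← hl3]
      exact (hW _ _ _ hu).2.1
    exact (hD.a2 (w i) (w k) hk3 hno).2 (hadj' k hk1 hk2).symm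

theorem L3 (hA3 : A3_stmt) (hA5 : A5_stmt) (hA6 : A6_stmt) (hA12 : A12_stmt) (hA14 : A14_stmt)
    (hA15 : A15_stmt) (hA22 : A22_stmt) (hM1 : M1_stmt) (hM2 : M2_stmt) (hW3 : W3_stmt) :
    L3_stmt := by
  intro B W _ M cs H m c hD hc x y
  rcases isEmpty_or_nonempty (Wall cs) with hemp | hne0
  · have h1 := (hA5 cs x y).2
    have h2 : {r | (cw cs).Sep r x y} = ∅ := Set.eq_empty_of_isEmpty _
    rw [h2, Set.ncard_empty] at h1
    have h3 : x = y := (dd_eq_zero cs).1 h1.symm
    rw [h3, dd_self, dd_self]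
  obtain ⟨X, w, hG, hX0, hXn⟩ := hA14 cs x y
  have hw : ∀ k < dd cs x y, ∃ i, w k = wall cs (X k) i ∧ X (k + 1) = X k * cs.simple i := by
    intro k hk
    obtain ⟨i, hi⟩ := hG.adj k hk
    refine ⟨i, Subtype.ext ?_, hi⟩
    have h1 := hG.step k hk
    rw [hi] at h1
    rw [wall_val, h1]
    group
  have hstep : ∀ k < dd cs x y,
      c (X (k + 1)) = c (X k) * (ra (labG cs H)).simple (lab cs H (w k)) := by
    intro k hk
    obtain ⟨i, hi, hi'⟩ := hw k hk
    rw [hi', hc.mul, hi]
  have hcar : ∀ k < dd cs x y, X k ∈ Car cs (w k) ∧ X (k + 1) ∈ Car cs (w k) := by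
    intro k hk
    obtain ⟨i, hi, hi'⟩ := hw k hk
    rw [hi', hi]
    exact ⟨L3_car_self _ _ _, L3_car_succ _ _ _⟩
  have hne := L3_ne hA3 hA6 hA12 hA15 hA22 hM1 hM2 hW3 cs H m c hD _ X w hG hstep hcar
  have hne' : ∀ i j, i < dd cs x y → j < dd cs x y → i ≠ j →
      wall (ra (labG cs H)) (c (X i)) (lab cs H (w i)) ≠
        wall (ra (labG cs H)) (c (X j)) (lab cs H (w j)) := by
    intro i j hi hj hij
    rcases lt_or_gt_of_ne hij with h1 | h1
    · exact hne (j - i - 1) i j (by omega) hj
    · exact (hne (i - j - 1) j i (by omega) hi).symm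
  obtain ⟨_, h5⟩ := hA5 (ra (labG cs H)) (c x) (c y)
  rw [← h5]
  classical
  have hset : {r | (cw (ra (labG cs H))).Sep r (c x) (c y)} =
      (((Finset.range (dd cs x y)).image
        (fun k => wall (ra (labG cs H)) (c (X k)) (lab cs H (w k))) :
        Finset (Wall (ra (labG cs H)))) : Set (Wall (ra (labG cs H)))) := by
    ext r
    rw [Set.mem_ofPred_eq, Finset.mem_coe, Finset.mem_image]
    constructor
    · intro hr
      by_contra hno
      push Not at hno
      have h6 := L3_nosep (ra (labG cs H)) hA3 (dd cs x y) (fun k => c (X k))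
        (fun k => lab cs H (w k)) hstep r 0 (dd cs x y) (Nat.zero_le _) le_rfl
        (fun k _ hk => (hno k (Finset.mem_range.2 hk)).symm)
      apply h6
      show (cw (ra (labG cs H))).Sep r (c (X 0)) (c (X (dd cs x y)))
      rw [hX0, hXn]
      exact hr
    · rintro ⟨k, hk, rfl⟩
      rw [Finset.mem_range] at hk
      have h6 := L3_sep (ra (labG cs H)) hA3 (dd cs x y) (fun k => c (X k))
        (fun k => lab cs H (w k)) hstep 0 (dd cs x y) le_rfl k (Nat.zero_le _) hk
        (fun l _ hl hlk => hne' k l hk hl (Ne.symm hlk))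
      have h7 : (cw (ra (labG cs H))).Sep
          (wall (ra (labG cs H)) (c (X k)) (lab cs H (w k))) (c (X 0)) (c (X (dd cs x y))) := h6
      rw [hX0, hXn] at h7
      exact h7
  rw [hset, Set.ncard_coe_finset, Finset.card_image_of_injOn, Finset.card_range]
  intro i hi j hj hij
  by_contra hc'
  exact hne' i j (by simpa using hi) (by simpa using hj) hc' hij

end Pool.Agent.helper63.DC
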