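import Pool.Agent.helper53.DC.SpecM

/-!
# Project dc (MP_a96873_gt), module M1: types of walls in a right-angled Coxeter group
-/

set_option autoImplicit false

namespace Pool.Agent.helper63.DC

open Pool.Agent.helper53.DC

/-- Abelianisation. -/
theorem M1_hom {Γ : Type} (G : SimpleGraph Γ) :
    ∃ φ : RA G →* Multiplicative (Γ → ZMod 2), ∀ s s', φ ((ra G).simple s) = φ ((ra G).simple s') →
      s = s' := by
  classical
  have hf : (raM G).IsLiftable
      (fun s : Γ => (Multiplicative.ofAdd (Pi.single s 1 : Γ → ZMod 2) :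
        Multiplicative (Γ → ZMod 2))) := by
    intro i j
    have hsq : ∀ z : Multiplicative (Γ → ZMod 2), z * z = 1 := by
      intro z
      apply Multiplicative.toAdd.injective
      rw [toAdd_mul, toAdd_one]
      funext g
      exact CharTwo.add_self_eq_zero _
    by_cases hij : i = j
    · subst hij
      rw [hsq, one_pow]
    · have hM : raM G i j = 2 ∨ raM G i j = 0 := by
        show (if i = j then 1 else if G.Adj i j then 2 else 0) = 2 ∨
          (if i = j then 1 else if G.Adj i j then 2 else 0) = 0
        rw [if_neg hij]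
        split_ifs
        · left; rfl
        · right; rfl
      rcases hM with h | h
      · rw [h, pow_two, hsq]
      · rw [h, pow_zero]
  refine ⟨(ra G).lift ⟨_, hf⟩, fun s s' h => ?_⟩
  rw [(ra G).lift_apply_simple hf s, (ra G).lift_apply_simple hf s'] at h
  have h1 : (Pi.single s 1 : Γ → ZMod 2) = Pi.single s' 1 := h
  by_contra hne
  have h2 := congrFun h1 s
  rw [Pi.single_eq_same, Pi.single_eq_of_ne hne] at h2
  exact one_ne_zero h2

theorem M1 : M1_stmt := by
  intro Γ G
  obtain ⟨φ, hφ⟩ := M1_hom G
  have hconj : ∀ g x : RA G, φ (g * x * g⁻¹) = φ x := by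
    intro g x
    rw [map_mul, map_mul, map_inv, mul_comm (φ g) (φ x), mul_inv_cancel_right]
  have hex : ∀ r : Wall (ra G), ∃ s, φ r.1 = φ ((ra G).simple s) := by
    intro r
    obtain ⟨g, s, hs⟩ := r.2
    refine ⟨s, ?_⟩
    rw [hs, hconj]
  choose t ht using hex
  refine ⟨t, fun x s => ?_, fun g r => ?_⟩
  · apply hφ
    rw [← ht, wall_val, hconj]
  · apply hφ
    rw [← ht, ← ht, smul_wall_val, hconj]

end Pool.Agent.helper63.DC
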