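import Pool.Agent.helper53.DC.SpecM

/-!
# Project dc (MP_a96873_gt), modules M2, M2b, M3: crossing walls in right-angled Coxeter groups
-/

set_option autoImplicit false

namespace Pool.Agent.helper63.DC

open Pool.Agent.helper53.DC

theorem M2_M {Γ : Type} (G : SimpleGraph Γ) {s s' : Γ} (h : G.Adj s s') : raM G s s' = 2 := by
  classical
  show (if s = s' then 1 else if G.Adj s s' then 2 else 0) = 2
  rw [if_neg h.ne, if_pos h]

theorem M2_adj {Γ : Type} (G : SimpleGraph Γ) {s s' : Γ} (hne : s ≠ s') (h : raM G s s' ≠ 0) :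
    G.Adj s s' := by
  classical
  have h1 : (if s = s' then 1 else if G.Adj s s' then 2 else 0) ≠ 0 := h
  rw [if_neg hne] at h1
  by_contra hc
  rw [if_neg hc] at h1
  exact h1 rfl

theorem M2_comm {Γ : Type} (G : SimpleGraph Γ) {s s' : Γ} (h : G.Adj s s') :
    (ra G).simple s * (ra G).simple s' = (ra G).simple s' * (ra G).simple s := by
  have h1 := (ra G).simple_mul_simple_pow s s'
  rw [M2_M G h, pow_two] at h1
  have h2 := eq_inv_of_mul_eq_one_left h1
  rw [mul_inv_rev, (ra G).inv_simple, (ra G).inv_simple] at h2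
  exact h2

theorem M2_sss {Γ : Type} (G : SimpleGraph Γ) {s s' : Γ} (h : G.Adj s s') :
    (ra G).simple s * (ra G).simple s' * (ra G).simple s = (ra G).simple s' := by
  rw [M2_comm G h, (ra G).simple_mul_simple_cancel_right]

theorem M2_pow {Γ : Type} (G : SimpleGraph Γ) {s s' : Γ} (h : G.Adj s s') (x : RA G)
    (r : Wall (ra G)) (a : ℕ)
    (hr : r.1 = x * ((ra G).simple s * (ra G).simple s') ^ a * (ra G).simple s * x⁻¹) :
    r = wall (ra G) x s ∨ r = wall (ra G) x s' := by
  have h1 := (ra G).simple_mul_simple_pow s s'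
  rw [M2_M G h] at h1
  rcases Nat.even_or_odd' a with ⟨k, hk | hk⟩
  · left
    apply Subtype.ext
    rw [hr, hk, pow_mul, h1, one_pow, mul_one, wall_val]
  · right
    apply Subtype.ext
    rw [hr, hk, pow_add, pow_mul, h1, one_pow, one_mul, pow_one, wall_val,
      mul_assoc x _ ((ra G).simple s), M2_sss G h]

theorem M2_irrefl {X Wl : Type} (S : WS X Wl) (u : Wl) : ¬ S.Cross u u := by
  intro h
  obtain ⟨y, hy1, hy2⟩ := h true false
  unfold WS.hs at hy1 hy2
  rw [Set.mem_ofPred_eq] at hy1 hy2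
  simp at hy1 hy2
  exact hy2 hy1

theorem M2 (hA7 : A7_stmt) (hA8 : A8_stmt) (hM1 : M1_stmt) : M2_stmt := by
  intro Γ G
  obtain ⟨t, ht, _⟩ := hM1 G
  have h2 : ∀ r r', (cw (ra G)).Cross r r' → ∃ x s s', G.Adj s s' ∧ r = wall (ra G) x s ∧
      r' = wall (ra G) x s' := by
    intro r r' hC
    have hne : r ≠ r' := by
      rintro rfl
      exact M2_irrefl _ _ hC
    obtain ⟨x, i, j, a, b, hM, hr, hr'⟩ := hA7 (ra G) r r' hC
    have hij : i ≠ j := by
      rintro rfl
      apply hne
      apply Subtype.ext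
      rw [hr, hr', (ra G).simple_mul_simple_self, one_pow, one_pow]
    have hadj := M2_adj G hij hM
    rcases M2_pow G hadj x r a hr with e1 | e1 <;> rcases M2_pow G hadj x r' b hr' with e2 | e2
    · exact absurd (e1.trans e2.symm) hne
    · exact ⟨x, i, j, hadj, e1, e2⟩
    · exact ⟨x, j, i, hadj.symm, e1, e2⟩
    · exact absurd (e1.trans e2.symm) hne
  refine ⟨fun s s' h => M2_comm G h, h2, ?_, ?_⟩
  · intro x s s' h
    apply hA8 (ra G)
    · refine ⟨x, s, s', 0, 1, ?_, ?_, ?_⟩
      · rw [M2_M G h]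
        norm_num
      · rw [pow_zero, mul_one, wall_val]
      · rw [pow_one, wall_val, mul_assoc x _ ((ra G).simple s), M2_sss G h]
    · intro he
      have := congrArg t he
      rw [ht, ht] at this
      exact h.ne this
  · intro x x' s s' hC
    obtain ⟨y, u, u', hadj, e1, e2⟩ := h2 _ _ hC
    have f1 := congrArg t e1
    have f2 := congrArg t e2
    rw [ht, ht] at f1 f2
    rw [f1, f2]
    exact hadj

theorem M2b (hM1 : M1_stmt) (hM2 : M2_stmt) : M2b_stmt := by
  intro Γ _ G F hF
  classical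
  obtain ⟨t, ht, _⟩ := hM1 G
  obtain ⟨_, h2, _, _⟩ := hM2 G
  have hinj : Set.InjOn t (F : Set (Wall (ra G))) := by
    intro v hv v' hv' h
    by_contra hne
    obtain ⟨x, s, s', hadj, e1, e2⟩ := h2 v v' (hF v hv v' hv' hne)
    rw [e1, e2, ht, ht] at h
    exact hadj.ne h
  have h3 := Finset.card_image_of_injOn hinj
  have := Fintype.ofFinite Γ
  rw [← h3, Nat.card_eq_fintype_card]
  exact Finset.card_le_univ _

theorem M3 (hM2 : M2_stmt) : M3_stmt := by
  intro Γ G n x w hG hC
  obtain ⟨hcomm, _, _, hadj⟩ := hM2 G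
  have hw : ∀ k < n + 1, ∃ i, w k = wall (ra G) (x k) i ∧ x (k + 1) = x k * (ra G).simple i := by
    intro k hk
    obtain ⟨i, hi⟩ := hG.adj k hk
    refine ⟨i, Subtype.ext ?_, hi⟩
    have h1 := hG.step k hk
    rw [hi] at h1
    rw [wall_val, h1]
    group
  have key : ∀ d k, k + d = n → x k ∈ Car (ra G) (w n) := by
    intro d
    induction d with
    | zero =>
      intro k hk
      rw [add_zero] at hk
      subst hk
      obtain ⟨i, hi, _⟩ := hw k (Nat.lt_succ_self k)
      refine ⟨i, ?_⟩
      rw [hi, wall_val]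
      group
    | succ d ih =>
      intro k hk
      obtain ⟨s, hs⟩ := ih (k + 1) (by omega)
      obtain ⟨i, hi, hi'⟩ := hw k (by omega)
      have e1 : w n = wall (ra G) (x (k + 1)) s := by
        apply Subtype.ext
        rw [wall_val, ← hs]
        group
      have hA : G.Adj i s := by
        apply hadj (x k) (x (k + 1))
        rw [← hi, ← e1]
        exact hC k (by omega)
      refine ⟨s, ?_⟩
      rw [e1, wall_val, hi']
      have h3 : x k * (ra G).simple i * (ra G).simple s * (x k * (ra G).simple i)⁻¹ * x k =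
          x k * ((ra G).simple i * (ra G).simple s * ((ra G).simple i)⁻¹) := by
        group
      rw [h3, (ra G).inv_simple, M2_sss G hA]
  intro k hk
  exact key (n - k) k (by omega)

end Pool.Agent.helper63.DC
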