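import Pool.Agent.helper58.DC.Spec3
import Pool.Agent.helper34.DC.TR

/-! # Project dq: WFQ, fixed elements for the wreath product with an arbitrary group `Q` -/

set_option autoImplicit false

namespace Pool.Agent.helper63.DC

open Pool.Agent.helper58.DC

/-- WFQ. Fixed elements for subgroups of the wreath product which contain the base group. -/
theorem WFQ (hFX : FX_stmt) (hTP : TP_stmt) : WFQ_stmt := by
  classical
  intro A Q T _ _ _ _ S D V hD
  have hfin : Finite (MulAction.orbitRel.Quotient V T) := inferInstance
  have := Fintype.ofFinite (MulAction.orbitRel.Quotient V T)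
  have h := Pool.Agent.helper34.DC.TR_gen hFX hTP S (wqC A Q T) (wqU A T V)
    (fun i : T => (Quotient.mk (MulAction.orbitRel V T) i : MulAction.orbitRel.Quotient V T)) (by
    intro t t'
    constructor
    · intro htt
      obtain ⟨v, hv⟩ : (MulAction.orbitRel V T).r t' t := Quotient.exact htt.symm
      exact ⟨⟨v.1, fun _ => 1⟩, v.2, hv⟩
    · rintro ⟨v, hv, rfl⟩
      exact (Quotient.sound ⟨⟨v.σ, hv⟩, rfl⟩ : Quotient.mk (MulAction.orbitRel V T) (v • t) =
        Quotient.mk (MulAction.orbitRel V T) t).symm) (by
    intro i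
    refine ⟨i.out, Quotient.out_eq i, fun a => ?_⟩
    exact ⟨⟨1, fun _ => a⟩, V.one_mem, one_smul Q i.out, rfl⟩) D hD
  rw [h, Nat.card_eq_fintype_card]

end Pool.Agent.helper63.DC
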